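import Pool.Agent.helper99.PLR.Spec
import Pool.Agent.helper9.HLR.LBP

/-!
# Project plr, row LBK: the lower bound (copy of LBP of helper9, with the star replaced by the ball)
-/

set_option autoImplicit false

open scoped Classical

namespace Pool.Agent.PLR

open Finset
open Pool.Agent.helper65.HC (V IsEig IsTop lam)
open Pool.Agent.helper9.HQ (Fam Dn E N Le Eig lk DC_fl DC_tot)
open Pool.Agent.helper9.HX (Ef)
open Pool.Agent.helper9.HLR (cel Lc LBP_e LBP_prod)

noncomputable section

/-- the size of the ball -/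
theorem LBK_card (k D : ℕ) : (ball k D).card ≤ (D + k).choose k := by
  have h1 : (ball k D).card = ∑ j ∈ range (k + 1), D.choose j := by
    have h2 : ball k D = (range (k + 1)).biUnion (fun j => (univ : Finset (Fin D)).powersetCard j) := by
      ext x
      unfold ball
      rw [mem_filter, mem_biUnion]
      constructor
      · rintro ⟨-, hx⟩
        refine ⟨x.card, ?_, ?_⟩
        · rw [mem_range]
          omega
        · rw [mem_powersetCard]
          exact ⟨subset_univ x, rfl⟩
      · rintro ⟨j, hj, hx⟩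
        rw [mem_range] at hj
        rw [mem_powersetCard] at hx
        exact ⟨mem_univ x, by omega⟩
    rw [h2, card_biUnion]
    · refine Finset.sum_congr rfl fun j _ => ?_
      rw [card_powersetCard, card_univ, Fintype.card_fin]
    · intro i _ j _ hij
      exact Finset.pairwise_disjoint_powersetCard _ hij
  rw [h1, Nat.add_choose_eq, Finset.Nat.sum_antidiagonal_eq_sum_range_succ (fun i j => D.choose i * k.choose j) k]
  refine Finset.sum_le_sum fun j hj => ?_
  have hpos : 0 < k.choose (k - j) := Nat.choose_pos (Nat.sub_le k j)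
  exact Nat.le_mul_of_pos_right _ hpos

theorem LBK (hBQ : BQ_stmt) (hWTS : WTS_stmt) (hEMB : Pool.Agent.helper9.HX.EMB_stmt) : LBK_stmt := by
  intro k K D d m hk hK hD hKd hm hmd
  obtain ⟨⟨U, hU, ht⟩, -⟩ := Pool.Agent.helper65.HC.lam_isGreatest K K hK Nat.lt_two_pow_self.le
  obtain ⟨A, g, hA, hg0, hgs, hg1, hgt⟩ := Pool.Agent.helper9.HQ.DC_start K U (lam K K) ht.1
  obtain ⟨hB1, hB2⟩ := hBQ k D hD
  -- the weights
  set w : Finset (Fin D) → ℝ := fun y => wt k D y.card with hw
  have hwsupp : ∀ s, s ∉ ball k D → w s = 0 := by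
    intro s hs
    unfold ball at hs
    rw [mem_filter] at hs
    push Not at hs
    have h1 := hs (mem_univ s)
    show wt k D s.card = 0
    unfold wt
    rw [if_neg (by omega)]
  have hwN : N (ball k D) w = ∑ b, w b ^ 2 := by
    unfold N
    refine Finset.sum_subset (Finset.subset_univ _) fun x _ hx => ?_
    rw [hwsupp x hx]
    ring
  have hwT : DC_tot w = E (ball k D) w := Pool.Agent.helper9.HQ.DC_tot_eq (ball k D) w hwsupp
  obtain ⟨hp1, hp2⟩ := LBP_prod K D g w
  set F : Finset (Fin (K + D)) → ℝ := fun x => g (LBP_e K D x).1 * w (LBP_e K D x).2 with hF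
  set W : Fam (K + D) := (A ×ˢ ball k D).map (LBP_e K D).symm.toEmbedding with hW
  have hWc : W.card ≤ m := by
    rw [hW, Finset.card_map, Finset.card_product, hA, hU]
    exact (Nat.mul_le_mul_left K (LBK_card k D)).trans hm
  have hFs : ∀ x, x ∉ W → F x = 0 := by
    intro x hx
    by_contra hcon
    apply hx
    rw [hW, Finset.mem_map]
    refine ⟨LBP_e K D x, ?_, by simp⟩
    rw [Finset.mem_product]
    constructor
    · by_contra h1
      apply hcon
      show g (LBP_e K D x).1 * _ = 0
      rw [hgs _ h1, zero_mul]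
    · by_contra h1
      apply hcon
      show _ * w (LBP_e K D x).2 = 0
      rw [hwsupp _ h1, mul_zero]
  have h1 := hEMB (K + D) d m W univ F (fun x _ => subset_univ x) (by
    rw [card_univ, Fintype.card_fin]
    exact hKd) hWc hmd
  have h2 : Ef W F = DC_tot F := by
    rw [Pool.Agent.helper9.HQ.DC_tot_eq W F hFs]
    unfold Ef E
    refine congrArg _ (Finset.sum_congr rfl fun x _ => Finset.sum_congr rfl fun i _ => ?_)
    by_cases h3 : x.erase i ∈ W
    · rw [if_pos h3]
    · rw [if_neg h3, hFs _ h3, mul_zero]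
  have h3 : N W F = ∑ x, F x ^ 2 := by
    unfold N
    refine Finset.sum_subset (Finset.subset_univ W) fun x _ hx => ?_
    rw [hFs x hx]
    ring
  rw [h2, h3, hp1, hp2, hg1, one_mul, one_mul, ← hwN, hwT] at h1
  set Q : ℝ := N (ball k D) w with hQ
  have hQ1 : 1 ≤ Q := hB2
  have hQ0 : 0 < Q := by linarith
  have hB1' : (1 - (k : ℝ) / D) * (hz (k + 1) * √D) * Q ≤ E (ball k D) w := hB1
  have h4 : (hz (k + 1) * √D * (1 - k / D) + lam K K) * Q ≤ lam d m * Q := by
    have h5 : lam K K * Q ≤ DC_tot g * Q := mul_le_mul_of_nonneg_right hgt hQ0.le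
    nlinarith
  exact le_of_mul_le_mul_right h4 hQ0

end

end Pool.Agent.PLR
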