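import Pool.Agent.helper99.PLR.Spec
import Pool.Agent.helper25.HQ.LOC

/-!
# Project plr, row LCK: localisation, levels `> k`
-/

set_option autoImplicit false

open scoped Classical

namespace Pool.Agent.PLR

open Finset
open Pool.Agent.helper65.HC (V IsEig IsTop lam)
open Pool.Agent.helper9.HQ (Fam Dn E N Le Eig lk)
open Pool.Agent.helper9.HX (Ef)
open Pool.Agent.helper9.HLR (cel Lc)

noncomputable section

theorem LCK : LCK_stmt := by
  intro d k U l f kap hU hE hk hl hL
  have hkl : 0 < kap * l := mul_pos hk hl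
  have h3 : ∀ w : Finset (Fin d), w.card = k + 1 →
      Pool.Agent.helper9.HQ.LOC_q U f w ≤ ((k + 1).factorial : ℝ) ^ 2 / (kap * l) ^ (2 * (k + 1)) := by
    intro w hw
    have h1 := Pool.Agent.helper9.HQ.LOC_bound U l f kap hU hE hk hl hL (k + 1) w hw
    have h4 := pow_le_pow_left₀ (Real.sqrt_nonneg _) h1 2
    rw [Real.sq_sqrt (Pool.Agent.helper9.HQ.LOC_q_nonneg U f w)] at h4
    refine h4.trans (le_of_eq ?_)
    rw [div_pow, ← pow_mul, mul_comm (k + 1) 2]
  have hsum : N (hiK k U) f ≤ ∑ w ∈ U.filter (fun w => w.card = k + 1), Pool.Agent.helper9.HQ.LOC_q U f w := by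
    unfold Pool.Agent.helper9.HQ.LOC_q Pool.Agent.helper9.HQ.LOC_X
    have h4 : ∀ w : Finset (Fin d), ∑ x ∈ U.filter (fun x => w ⊆ x), f x ^ 2 =
        ∑ x ∈ U, if w ⊆ x then f x ^ 2 else 0 := fun w => sum_filter _ _
    rw [Finset.sum_congr rfl fun w _ => h4 w, Finset.sum_comm]
    unfold N hiK
    rw [sum_filter]
    refine Finset.sum_le_sum fun x hx => ?_
    have hnn : ∀ w ∈ U.filter (fun w => w.card = k + 1), 0 ≤ (if w ⊆ x then f x ^ 2 else 0 : ℝ) := by
      intro w _
      split_ifs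
      · exact sq_nonneg _
      · exact le_rfl
    split_ifs with hc
    · have hc' : k + 1 ≤ x.card := hc
      obtain ⟨w, hwx, hwc⟩ := Finset.exists_subset_card_eq hc'
      have hwU : w ∈ U.filter (fun w => w.card = k + 1) := mem_filter.2 ⟨hU x hx w hwx, hwc⟩
      have h5 := Finset.single_le_sum hnn hwU
      rw [if_pos hwx] at h5
      exact h5
    · exact Finset.sum_nonneg hnn
  refine hsum.trans ?_
  have h6 : ∑ w ∈ U.filter (fun w => w.card = k + 1), Pool.Agent.helper9.HQ.LOC_q U f w ≤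
      ∑ _w ∈ U.filter (fun w => w.card = k + 1), ((k + 1).factorial : ℝ) ^ 2 / (kap * l) ^ (2 * (k + 1)) :=
    Finset.sum_le_sum fun w hw => h3 w (mem_filter.1 hw).2
  refine h6.trans ?_
  rw [sum_const, nsmul_eq_mul]
  have h7 : ((U.filter (fun w => w.card = k + 1)).card : ℝ) ≤ (U.card : ℝ) := by
    exact_mod_cast card_filter_le _ _
  have h8 : 0 ≤ ((k + 1).factorial : ℝ) ^ 2 / (kap * l) ^ (2 * (k + 1)) := by positivity
  calc _ ≤ (U.card : ℝ) * (((k + 1).factorial : ℝ) ^ 2 / (kap * l) ^ (2 * (k + 1))) := mul_le_mul_of_nonneg_right h7 h8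
    _ = _ := by ring

end

end Pool.Agent.PLR
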